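import Pool.Agent.Run7.h850.SG.Grow

/-!
# The block step
-/

set_option autoImplicit false
set_option linter.unusedSectionVars false
set_option linter.unusedVariables false

namespace Run7.h850.SG

open Matrix Pool.Agent.H812R2.SSE Run7.h850.SS

variable {γ β : Type} [Fintype γ] [DecidableEq γ] [Fintype β] [DecidableEq β]

theorem grow {Θ : Matrix γ γ ℕ} {B : Matrix β β ℕ} {D : ℕ} (hΘ : Bo Θ) (hB : Gw B)
    (hD : Dd Θ B D) (μ : Matrix γ β ℕ) (κ K : ℕ) :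
    ∃ p0 : ℕ, ∀ p, p0 ≤ p → ∃ a0 : ℕ, ∀ a c : ℕ, a0 ≤ a → a0 ≤ c → D ∣ a →
      a + c + D * p ≡ κ [MOD D] → ∀ i b, Up D κ Θ μ B i b →
      (∃ s i' b', s ≤ D * p ∧ (Θ ^ s) i i' ≠ 0 ∧ (B ^ (D * p - s)) b' b ≠ 0 ∧
        K * (D * p + 1) ≤ (Θ ^ a * μ * B ^ c) i' b') ∨
      (1 ≤ (Θ ^ a * μ * B ^ c) i b ∧ B b b = 1 ∧
        (∀ b', Up D (κ + (D - 1)) Θ μ B i b' → B b' b = if b' = b then 1 else 0) ∧
        ∀ c, Θ i c = if c = i then 1 else 0) := by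
  have h := fun v : γ × β => grow1 hΘ hB hD μ κ K v.1 v.2
  choose p0 hp0 using h
  refine ⟨Finset.univ.sup p0, fun p hp => ?_⟩
  have h2 := fun v : γ × β => hp0 v p ((Finset.le_sup (f := p0) (Finset.mem_univ v)).trans hp)
  choose a0 ha0 using h2
  refine ⟨Finset.univ.sup a0, fun a c ha hc hda htot i b hu => ?_⟩
  have h3 := Finset.le_sup (f := a0) (Finset.mem_univ (i, b))
  exact ha0 (i, b) a c (h3.trans ha) (h3.trans hc) hda htot hu

/-- quotients and remainders of the entries -/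
def yy (Y : Matrix γ β ℕ) (P : ℕ) : Matrix γ β ℕ := fun i b => Y i b / (P + 1)
def ww (Y : Matrix γ β ℕ) (P : ℕ) : Matrix γ β ℕ := fun i b => Y i b % (P + 1)

theorem yw (Y : Matrix γ β ℕ) (P : ℕ) : ww Y P + (P + 1) • yy Y P = Y := by
  ext i b
  exact Nat.mod_add_div (Y i b) (P + 1)

/-- the spread configuration -/
def NN (Θ : Matrix γ γ ℕ) (B : Matrix β β ℕ) (Y : Matrix γ β ℕ) (P : ℕ) : Matrix γ β ℕ :=
  ww Y P * B ^ P + Spr Θ B (yy Y P) P (P + 1)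

section

variable {Θ : Matrix γ γ ℕ} {B : Matrix β β ℕ}

theorem toN (Y : Matrix γ β ℕ) (P : ℕ) : Pth Θ B (Y * B ^ P) (NN Θ B Y P)
    (∑ s ∈ Finset.range (P + 1), PP Θ (yy Y P) B s * B ^ (P - s)) := by
  refine (spread (Θ := Θ) (B := B) P (yy Y P) (P + 1) le_rfl (ww Y P * B ^ P)).cast ?_ rfl rfl
  rw [← Matrix.smul_mul, ← Matrix.add_mul, yw]

theorem fromN (Y : Matrix γ β ℕ) (P : ℕ) : Pth Θ B (NN Θ B Y P) (Θ ^ P * Y)
    ((∑ s ∈ Finset.range (P + 1), PP Θ (Θ ^ s * yy Y P) B (P - s)) + PP Θ (ww Y P) B P) := by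
  have h1 := unspread (Θ := Θ) (B := B) P (yy Y P) (P + 1) le_rfl (ww Y P * B ^ P)
  have h2 := adv (Θ := Θ) (B := B) P 0 ((P + 1) • (Θ ^ P * yy Y P)) (ww Y P)
  rw [Nat.add_zero, pow_zero, Matrix.mul_one, Matrix.mul_one] at h2
  refine (h1.trans (h2.cast (add_comm _ _) rfl rfl)).cast rfl ?_ rfl
  rw [← Matrix.mul_smul, ← Matrix.mul_add, add_comm, yw]

theorem NN_total (Y : Matrix γ β ℕ) (P : ℕ) :
    (∑ s ∈ Finset.range (P + 1), PP Θ (yy Y P) B s * B ^ (P - s)) +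
    ((∑ s ∈ Finset.range (P + 1), PP Θ (Θ ^ s * yy Y P) B (P - s)) + PP Θ (ww Y P) B P) =
      PP Θ Y B P := by
  rw [← add_assoc, spread_total P _ (P + 1) le_rfl, ← PP_nsmul, ← PP_plus, add_comm, yw]

theorem NN_big {Y : Matrix γ β ℕ} {P K s : ℕ} {i i' : γ} {b b' : β} (hs : s ≤ P)
    (h1 : (Θ ^ s) i i' ≠ 0) (h2 : (B ^ (P - s)) b' b ≠ 0) (h3 : K * (P + 1) ≤ Y i' b') :
    K ≤ NN Θ B Y P i b := by
  have h4 : K ≤ yy Y P i' b' := (Nat.le_div_iff_mul_le (Nat.succ_pos P)).2 h3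
  have h5 : (Θ ^ s * yy Y P * B ^ (P - s)) i b ≤ Spr Θ B (yy Y P) P (P + 1) i b := by
    unfold Spr
    rw [Matrix.sum_apply]
    exact Finset.single_le_sum (f := fun s => (Θ ^ s * yy Y P * B ^ (P - s)) i b)
      (fun _ _ => Nat.zero_le _) (Finset.mem_range.2 (by omega))
  have h6 := mul_entry_le (Θ ^ s * yy Y P) (B ^ (P - s)) i b' b
  have h7 := mul_entry_le (Θ ^ s) (yy Y P) i i' b'
  have h8 : 1 * K ≤ (Θ ^ s) i i' * yy Y P i' b' :=
    Nat.mul_le_mul (Nat.one_le_iff_ne_zero.2 h1) h4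
  have h9 : K * 1 ≤ (Θ ^ s * yy Y P) i b' * (B ^ (P - s)) b' b :=
    Nat.mul_le_mul (by omega) (Nat.one_le_iff_ne_zero.2 h2)
  change K ≤ (ww Y P * B ^ P) i b + Spr Θ B (yy Y P) P (P + 1) i b
  omega

theorem NN_one {Y : Matrix γ β ℕ} {P : ℕ} {i : γ} {b : β} (h1 : 1 ≤ Y i b) (h2 : B b b = 1) :
    1 ≤ NN Θ B Y P i b := by
  by_cases h : ww Y P i b = 0
  · have h3 : Y i b % (P + 1) = 0 := h
    have h4 : 1 * (P + 1) ≤ Y i b := by
      have := Nat.le_of_dvd h1 (Nat.dvd_of_mod_eq_zero h3)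
      omega
    refine NN_big (s := 0) (i' := i) (b' := b) (Nat.zero_le _) ?_ ?_ h4
    · rw [pow_zero, Matrix.one_apply_eq]; exact one_ne_zero
    · have := diag_one h2 (P - 0); omega
  · have h3 := mul_entry_le (ww Y P) (B ^ P) i b b
    have h4 := diag_one h2 P
    have h5 : 1 * 1 ≤ ww Y P i b * (B ^ P) b b :=
      Nat.mul_le_mul (Nat.one_le_iff_ne_zero.2 h) h4
    change 1 ≤ (ww Y P * B ^ P) i b + Spr Θ B (yy Y P) P (P + 1) i b
    omega

end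

theorem blk' {a b c d : Type} {A A' : Matrix a b ℕ} {B B' : Matrix a d ℕ} {C C' : Matrix c b ℕ}
    {D D' : Matrix c d ℕ} (h : fromBlocks A B C D = fromBlocks A' B' C' D') :
    A = A' ∧ B = B' ∧ D = D' := by
  have h1 := congrArg Matrix.toBlocks₁₁ h
  have h2 := congrArg Matrix.toBlocks₁₂ h
  have h4 := congrArg Matrix.toBlocks₂₂ h
  rw [Matrix.toBlocks_fromBlocks₁₁, Matrix.toBlocks_fromBlocks₁₁] at h1
  rw [Matrix.toBlocks_fromBlocks₁₂, Matrix.toBlocks_fromBlocks₁₂] at h2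
  rw [Matrix.toBlocks_fromBlocks₂₂, Matrix.toBlocks_fromBlocks₂₂] at h4
  exact ⟨h1, h2, h4⟩

theorem up' {a b c a' b' c' : Type} [Fintype b] [Fintype b'] (A : Matrix a b ℕ)
    (B : Matrix a b' ℕ)
    (D : Matrix a' b' ℕ) (A' : Matrix b c ℕ) (B' : Matrix b c' ℕ) (D' : Matrix b' c' ℕ) :
    fromBlocks A B 0 D * fromBlocks A' B' 0 D' =
      fromBlocks (A * A') (A * B' + B * D') (0 : Matrix a' c ℕ) (D * D') := by
  rw [Matrix.fromBlocks_multiply]; simp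

section

variable {Θ : Matrix γ γ ℕ} {m m' : Matrix γ β ℕ} {B : Matrix β β ℕ}

theorem dvd_modEq {D a : ℕ} (h : D ∣ a) (x : ℕ) : x + a ≡ x [MOD D] := by
  obtain ⟨y, rfl⟩ := h
  exact mod_add_mul D x y

theorem block_step (hΘ : Bo Θ) (hB : Gw B) (e f l : ℕ) (r : Matrix γ β ℕ)
    (s0 : Matrix γ γ ℕ) (s12 : Matrix γ β ℕ) (S2 : Matrix β β ℕ)
    (hAR : fromBlocks Θ m 0 B * fromBlocks (Θ ^ e) r 0 (B ^ f) =
      fromBlocks (Θ ^ e) r 0 (B ^ f) * fromBlocks Θ m' 0 B)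
    (hRS : fromBlocks (Θ ^ e) r 0 (B ^ f) * fromBlocks s0 s12 0 S2 = (fromBlocks Θ m 0 B) ^ l)
    (hSR : fromBlocks s0 s12 0 S2 * fromBlocks (Θ ^ e) r 0 (B ^ f) =
      (fromBlocks Θ m' 0 B) ^ l) :
    ∃ T, CH (XO Θ m B) (XO Θ m' B)
      ((fromBlocks Θ m 0 B) ^ T * fromBlocks (Θ ^ e) r 0 (B ^ f)) := by
  have bd : BD Θ m m' B e f l r s0 s12 S2 := by
    have h1 := hAR
    have h2 := hRS
    have h3 := hSR
    rw [up', up'] at h1
    rw [up', block_pow] at h2 h3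
    obtain ⟨-, a2, -⟩ := blk' h1
    obtain ⟨b1, b2, -⟩ := blk' h2
    obtain ⟨-, c2, c3⟩ := blk' h3
    refine ⟨?_, b1, c3, b2, c2⟩
    rw [← a2, add_comm]
  obtain ⟨D, hD⟩ := exD hΘ hB
  obtain ⟨p1, g1⟩ := grow hΘ hB hD m f (tot B + tot Θ + 1)
  obtain ⟨p2, g2⟩ := grow hΘ hB hD m' e (tot B + tot Θ + 1)
  obtain ⟨p, hp⟩ : ∃ p, p = p1 + p2 := ⟨_, rfl⟩
  obtain ⟨a1, g1⟩ := g1 p (by omega)
  obtain ⟨a2, g2⟩ := g2 p (by omega)
  obtain ⟨P, hP⟩ : ∃ P, P = D * p := ⟨_, rfl⟩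
  rw [← hP] at g1 g2
  obtain ⟨u, hu⟩ : ∃ u, u = e * (D - 1) := ⟨_, rfl⟩
  obtain ⟨Q, hQ⟩ : ∃ Q, Q = D * (a1 + a2 + u + 1) := ⟨_, rfl⟩
  have hQ1 : a1 + a2 + u + 1 ≤ Q := by
    rw [hQ]; exact Nat.le_mul_of_pos_left _ hD.pos
  obtain ⟨w, hw⟩ : ∃ w, Q = u + w := ⟨Q - u, by omega⟩
  obtain ⟨t, ht⟩ : ∃ t, t = P + Q := ⟨_, rfl⟩
  have hDt : D ∣ t := by
    rw [ht, hP, hQ]
    exact Dvd.dvd.add (Dvd.intro _ rfl) (Dvd.intro _ rfl)
  have hDQ : D ∣ Q := by rw [hQ]; exact Dvd.intro _ rfl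
  have hue : u + e = D * e := by
    obtain ⟨d, rfl⟩ : ∃ d, D = d + 1 := ⟨D - 1, by have := hD.pos; omega⟩
    rw [hu]; simp; ring
  obtain ⟨x, hx⟩ : ∃ x, x = Θ ^ (t + e) * m' := ⟨_, rfl⟩
  obtain ⟨Y, hY⟩ : ∃ Y, Y = Θ ^ Q * m * B ^ (f + t) := ⟨_, rfl⟩
  obtain ⟨Y', hY'⟩ : ∃ Y', Y' = Θ ^ u * x * B ^ w := ⟨_, rfl⟩
  -- the legal paths
  have c11 : Pth Θ B (m * B ^ (f + t + t)) (Y * B ^ P) (PP Θ m B Q * B ^ (f + t + P)) := by
    refine (adv (Θ := Θ) (B := B) Q (f + t + P) 0 m).cast ?_ ?_ rfl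
    · rw [zero_add, show Q + (f + t + P) = f + t + t by omega]
    · rw [zero_add, hY, Matrix.mul_assoc (Θ ^ Q * m), ← pow_add]
  have c12 := toN (Θ := Θ) (B := B) Y P
  have d1 := fromN (Θ := Θ) (B := B) Y P
  have id0 := NN_total (Θ := Θ) (B := B) Y P
  obtain ⟨G12, hG12⟩ : ∃ G, G = ∑ s ∈ Finset.range (P + 1), PP Θ (yy Y P) B s * B ^ (P - s) :=
    ⟨_, rfl⟩
  obtain ⟨G1, hG1⟩ : ∃ G, G = (∑ s ∈ Finset.range (P + 1), PP Θ (Θ ^ s * yy Y P) B (P - s)) +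
    PP Θ (ww Y P) B P := ⟨_, rfl⟩
  rw [← hG12] at c12 id0
  rw [← hG1] at d1 id0
  have d1' : Pth Θ B (NN Θ B Y P) (Θ ^ t * m * B ^ (f + t)) G1 := by
    refine d1.cast rfl ?_ rfl
    rw [hY, ht, pow_add Θ P Q]; simp only [Matrix.mul_assoc]
  have id1 : PP Θ m B Q * B ^ (f + t + P) + (G12 + G1) = PP Θ m B t * B ^ (f + t) := by
    rw [id0, hY, PP_right, PP_left, show t = Q + P by omega, PP_add', Matrix.add_mul, add_comm,
      Matrix.mul_assoc (PP Θ m B Q), ← pow_add, show f + (Q + P) + P = P + (f + (Q + P)) by ring]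
  have d2a : Pth Θ B (x * B ^ t) (Y' * B ^ P) (PP Θ x B u * B ^ (w + P)) := by
    refine (adv (Θ := Θ) (B := B) u (w + P) 0 x).cast ?_ ?_ rfl
    · rw [zero_add, show u + (w + P) = t by omega]
    · rw [zero_add, hY', Matrix.mul_assoc (Θ ^ u * x), ← pow_add]
  have d2b := toN (Θ := Θ) (B := B) Y' P
  have c31 := fromN (Θ := Θ) (B := B) Y' P
  have id0' := NN_total (Θ := Θ) (B := B) Y' P
  obtain ⟨G22, hG22⟩ : ∃ G, G = ∑ s ∈ Finset.range (P + 1), PP Θ (yy Y' P) B s * B ^ (P - s) :=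
    ⟨_, rfl⟩
  obtain ⟨F31, hF31⟩ : ∃ G, G = (∑ s ∈ Finset.range (P + 1), PP Θ (Θ ^ s * yy Y' P) B (P - s)) +
    PP Θ (ww Y' P) B P := ⟨_, rfl⟩
  rw [← hG22] at d2b id0'
  rw [← hF31] at c31 id0'
  have d2 : Pth Θ B (x * B ^ t) (NN Θ B Y' P) (PP Θ x B u * B ^ (w + P) + G22) := d2a.trans d2b
  obtain ⟨G2, hG2⟩ : ∃ G, G = PP Θ x B u * B ^ (w + P) + G22 := ⟨_, rfl⟩
  rw [← hG2] at d2
  have c32 : Pth Θ B (Θ ^ P * Y') (Θ ^ (t + t + e) * m') (PP Θ (Θ ^ P * (Θ ^ u * x)) B w) := by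
    have h := adv (Θ := Θ) (B := B) w 0 0 (Θ ^ P * (Θ ^ u * x))
    rw [Nat.add_zero, pow_zero, Matrix.mul_one, Matrix.mul_one, zero_add, zero_add] at h
    refine h.cast ?_ ?_ rfl
    · rw [hY']; simp only [Matrix.mul_assoc]
    · rw [hx]; simp only [← Matrix.mul_assoc, ← pow_add]
      rw [show w + (P + (u + (t + e))) = t + t + e by omega]
  have id2 : G2 + (F31 + PP Θ (Θ ^ P * (Θ ^ u * x)) B w) = PP Θ x B t := by
    have e1 : G22 + F31 = Θ ^ u * PP Θ x B P * B ^ w := by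
      rw [id0', hY', PP_right, PP_left]
    have e2 : PP Θ (Θ ^ P * (Θ ^ u * x)) B w = Θ ^ u * (Θ ^ P * PP Θ x B w) := by
      rw [PP_left, PP_left, ← Matrix.mul_assoc, ← Matrix.mul_assoc, ← pow_add, ← pow_add,
        add_comm P u]
    have e3 : PP Θ x B t = Θ ^ u * (Θ ^ P * PP Θ x B w + PP Θ x B P * B ^ w) +
        PP Θ x B u * B ^ (w + P) := by
      rw [show t = u + (P + w) by omega, PP_add', PP_add', add_comm w P]
    rw [hG2, e2, e3, Matrix.mul_add, ← Matrix.mul_assoc (Θ ^ u) (PP Θ x B P), ← e1]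
    abel
  -- the middle part
  obtain ⟨M, hM⟩ : ∃ M, M = Θ ^ t * r * B ^ t := ⟨_, rfl⟩
  have eM : x * B ^ t + M * B = Θ ^ t * m * B ^ (f + t) + Θ * M := by
    have h1 : M * B = Θ ^ t * (r * B) * B ^ t := by
      rw [hM]; simp only [Matrix.mul_assoc]
      rw [← pow_succ, ← pow_succ']
    have h2 : Θ * M = Θ ^ t * (Θ * r) * B ^ t := by
      rw [hM]; simp only [← Matrix.mul_assoc]
      rw [← pow_succ, ← pow_succ']
    have h3 : x * B ^ t = Θ ^ t * (Θ ^ e * m') * B ^ t := by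
      rw [hx, pow_add]; simp only [Matrix.mul_assoc]
    have h4 : Θ ^ t * m * B ^ (f + t) = Θ ^ t * (m * B ^ f) * B ^ t := by
      rw [pow_add]; simp only [Matrix.mul_assoc]
    rw [h1, h2, h3, h4, ← Matrix.add_mul, ← Matrix.mul_add, bd.q1, Matrix.mul_add,
      Matrix.add_mul]
  obtain ⟨q, hq⟩ : ∃ q, q = G1 + (M + G2) := ⟨_, rfl⟩
  have he : NN Θ B Y' P + q * B = NN Θ B Y P + Θ * q := by
    have h1 := d1'.eq
    have h2 := d2.eq
    calc NN Θ B Y' P + q * B = (NN Θ B Y' P + G2 * B) + (M * B + G1 * B) := by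
          rw [hq, Matrix.add_mul, Matrix.add_mul]; abel
      _ = (x * B ^ t + M * B) + (Θ * G2 + G1 * B) := by rw [h2]; abel
      _ = (Θ ^ t * m * B ^ (f + t) + G1 * B) + (Θ * M + Θ * G2) := by rw [eM]; abel
      _ = NN Θ B Y P + Θ * q := by
          rw [h1, hq, Matrix.mul_add, Matrix.mul_add]; abel
  -- the support of `q`
  have hsup1 : ∀ i b, q i b ≠ 0 → Up D (f + (D - 1)) Θ m B i b := by
    intro i b h
    have h0 : G1 i b ≠ 0 ∨ M i b ≠ 0 ∨ G2 i b ≠ 0 := by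
      by_contra hcon
      push Not at hcon
      apply h
      rw [hq]
      change G1 i b + (M i b + G2 i b) = 0
      omega
    rcases h0 with h0 | h0 | h0
    · have h1 := congrFun (congrFun id1 i) b
      change (PP Θ m B Q * B ^ (f + t + P)) i b + (G12 i b + G1 i b) = _ at h1
      have h2 : (PP Θ m B t * B ^ (f + t)) i b ≠ 0 := by omega
      obtain ⟨b1, h3, h4⟩ := mex h2
      obtain ⟨t', ht', h5⟩ := PP_up (D := D) h3
      refine (h5.right h4).mod ?_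
      have h6 : t' + (f + t) + D ≡ f + (D - 1) + D [MOD D] := by
        rw [show t' + (f + t) + D = f + (D - 1) + (t + t) by have := hD.pos; omega]
        exact (dvd_modEq (hDt.add hDt) _).trans (dvd_modEq dvd_rfl _).symm
      exact Nat.ModEq.add_right_cancel' D h6
    · rw [hM] at h0
      obtain ⟨b1, h1, h2⟩ := mex h0
      obtain ⟨i1, h3, h4⟩ := mex h1
      refine (((bd.r1 hD h4).left h3).right h2).mod ?_
      rw [add_assoc _ t t]
      exact dvd_modEq (hDt.add hDt) _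
    · have h1 := congrFun (congrFun id2 i) b
      change G2 i b + (F31 i b + PP Θ (Θ ^ P * (Θ ^ u * x)) B w i b) = _ at h1
      have h2 : PP Θ x B t i b ≠ 0 := by omega
      rw [hx, PP_left] at h2
      obtain ⟨i1, h3, h4⟩ := mex h2
      obtain ⟨t', ht', h5⟩ := PP_up (D := D) h4
      refine bd.up1 hD ((h5.left h3).mod ?_)
      have h6 : t' + (t + e) + D ≡ e + (D - 1) + D [MOD D] := by
        rw [show t' + (t + e) + D = e + (D - 1) + (t + t) by have := hD.pos; omega]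
        exact (dvd_modEq (hDt.add hDt) _).trans (dvd_modEq dvd_rfl _).symm
      exact Nat.ModEq.add_right_cancel' D h6
  have hpath : Pth Θ B (NN Θ B Y P) (NN Θ B Y' P) q := by
    refine path2 Θ B _ _ _ (Up D f Θ m B) ?_ ?_ he
    · intro i b b' h1 h2
      exact ((hsup1 i b h1).right (s := 1) (by rw [pow_one]; exact h2)).mod (shift1 hD.pos f)
    · intro i b hU
      have t1 := g1 Q (f + t) (by omega) (by omega) hDQ (by
        rw [show Q + (f + t) + P = f + (t + t) by omega]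
        exact dvd_modEq (hDt.add hDt) _) i b hU
      have t2 := g2 (u + (t + e)) w (by omega) (by omega) (by
        rw [show u + (t + e) = t + (u + e) by ring, hue]
        exact hDt.add (Dvd.intro _ rfl)) (by
        rw [show u + (t + e) + w + P = e + (t + t) by omega]
        exact dvd_modEq (hDt.add hDt) _) i b (bd.up2 hD (x := 0) hU)
      have eY' : Θ ^ (u + (t + e)) * m' * B ^ w = Y' := by
        rw [hY', hx, pow_add]; simp only [Matrix.mul_assoc]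
      rw [← hY] at t1
      rw [eY'] at t2
      rcases t1 with ⟨s, i', b', k1, k2, k3, k4⟩ | ⟨k1, k2, k3, k4⟩
      · have n1 := NN_big (Θ := Θ) (B := B) k1 k2 k3 k4
        rcases t2 with ⟨s', i'', b'', l1, l2, l3, l4⟩ | ⟨l1, l2, l3, l4⟩
        · have n2 := NN_big (Θ := Θ) (B := B) l1 l2 l3 l4
          left
          constructor <;> omega
        · right
          exact ⟨by omega, fun b' hb' => l3 b' (bd.up2 hD (hsup1 i b' hb')), l4⟩
      · right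
        exact ⟨NN_one k1 k2, fun b' hb' => k3 b' (hsup1 i b' hb'), k4⟩
  have hall : Pth Θ B (m * B ^ (f + t + t)) (Θ ^ (t + t + e) * m')
      (PP Θ m B t * B ^ (f + t) + M + PP Θ x B t) := by
    refine ((((c11.trans c12).trans hpath).trans c31).trans c32).cast rfl rfl ?_
    rw [← id1, ← id2, hq]
    abel
  refine ⟨t + t, ?_⟩
  have k1 := (powCH ⟨β, B⟩ (f + t + t)).lift Θ m
  have k3 := downCH Θ B (t + t + e) m'
  have c := (CH.trans k1 hall).trans k3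
  convert c using 1
  have e1 : (fromBlocks Θ m 0 B) ^ (t + t) * fromBlocks (Θ ^ e) r 0 (B ^ f) =
      (fromBlocks Θ m 0 B) ^ t * fromBlocks (Θ ^ e) r 0 (B ^ f) * (fromBlocks Θ m' 0 B) ^ t := by
    rw [pow_add, Matrix.mul_assoc, Matrix.mul_assoc, semiconj_pow _ _ _ hAR t]
  rw [e1, block_pow, block_pow, up', up', up', up']
  have e2 : PP Θ x B t = Θ ^ t * Θ ^ e * PP Θ m' B t := by
    rw [hx, PP_left, pow_add]
  rw [e2, hM]
  congr 1
  · rw [Matrix.one_mul, Matrix.one_mul, ← pow_add, ← pow_add]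
    congr 1; ring
  · have e3 : (Θ ^ t * r + PP Θ m B t * B ^ f) * B ^ t =
        Θ ^ t * r * B ^ t + PP Θ m B t * B ^ (f + t) := by
      rw [Matrix.add_mul, Matrix.mul_assoc (PP Θ m B t), ← pow_add]
    rw [e3]
    simp only [Matrix.one_mul, Matrix.mul_one, Matrix.mul_zero, Matrix.zero_mul, add_zero,
      zero_add]
    abel
  · rw [Matrix.mul_one, Matrix.mul_one, ← pow_add, ← pow_add]
    congr 1; ring

end

end Run7.h850.SG
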