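import Pool.Agent.Run7.h850.SG.Path

/-!
# Reachable pairs and growth
-/

set_option autoImplicit false
set_option linter.unusedSectionVars false
set_option linter.unusedVariables false

namespace Run7.h850.SG

open Matrix Pool.Agent.H812R2.SSE Run7.h850.SS

/-- two closed paths of the same length -/
def Two {α : Type} [Fintype α] [DecidableEq α] (A : Matrix α α ℕ) (i : α) : Prop :=
  ∃ N, 1 ≤ N ∧ 2 ≤ (A ^ N) i i

/-- growth at every state, or `[1]` -/
def Bo {γ : Type} [Fintype γ] [DecidableEq γ] (Θ : Matrix γ γ ℕ) : Prop :=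
  (∀ c, Two Θ c) ∨ (Subsingleton γ ∧ Θ = 1)

/-- every state has growth or a loop -/
def Gw {β : Type} [Fintype β] [DecidableEq β] (B : Matrix β β ℕ) : Prop :=
  ∀ b, Two B b ∨ B b b = 1

variable {γ β α : Type} [Fintype γ] [DecidableEq γ] [Fintype β] [DecidableEq β] [Fintype α]
  [DecidableEq α]

theorem Two.rec {A : Matrix α α ℕ} {i : α} (h : Two A i) : Rec A i := by
  obtain ⟨N, hN, h⟩ := h
  exact ⟨N, hN, by omega⟩

theorem Gw.rec {B : Matrix β β ℕ} (h : Gw B) (b : β) : Rec B b := by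
  rcases h b with h | h
  · exact h.rec
  · exact ⟨1, le_rfl, by rw [pow_one, h]; exact one_ne_zero⟩

theorem Bo.rec {Θ : Matrix γ γ ℕ} (h : Bo Θ) (c : γ) : Rec Θ c := by
  rcases h with h | ⟨_, h⟩
  · exact (h c).rec
  · exact ⟨1, le_rfl, by rw [pow_one, h, Matrix.one_apply_eq]; exact one_ne_zero⟩

theorem pdl (A : Matrix α α ℕ) (i : α) (N x : ℕ) : ((A ^ N) i i) ^ x ≤ (A ^ (N * x)) i i := by
  induction x with
  | zero => rw [pow_zero, mul_zero, pow_zero, Matrix.one_apply_eq]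
  | succ x ih =>
    rw [pow_succ, Nat.mul_succ, pow_add]
    exact (Nat.mul_le_mul_right _ ih).trans (mul_entry_le _ _ _ _ _)

theorem exD1 (A : Matrix α α ℕ) : ∃ D, 1 ≤ D ∧ ∀ i, (Rec A i → (A ^ D) i i ≠ 0) ∧
    (Two A i → 2 ≤ (A ^ D) i i) := by
  classical
  have h : ∀ i, ∃ N, 1 ≤ N ∧ (Rec A i → (A ^ N) i i ≠ 0) ∧ (Two A i → 2 ≤ (A ^ N) i i) := by
    intro i
    by_cases h2 : Two A i
    · obtain ⟨N, hN, h⟩ := h2
      exact ⟨N, hN, fun _ => by omega, fun _ => h⟩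
    · by_cases h1 : Rec A i
      · obtain ⟨N, hN, h⟩ := h1
        exact ⟨N, hN, fun _ => h, fun h => absurd h h2⟩
      · exact ⟨1, le_rfl, fun h => absurd h h1, fun h => absurd h h2⟩
  choose N hN h1 h2 using h
  refine ⟨∏ i, N i, Nat.one_le_iff_ne_zero.2 (Finset.prod_ne_zero_iff.2 fun i _ => by
    have := hN i; omega), fun i => ?_⟩
  obtain ⟨x, hx⟩ := Finset.dvd_prod_of_mem N (Finset.mem_univ i)
  have hx1 : x ≠ 0 := by
    intro h0
    rw [h0, mul_zero] at hx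
    exact (Finset.prod_ne_zero_iff.2 fun i _ => by have := hN i; omega) hx
  rw [hx]
  have h3 := pdl A i (N i) x
  refine ⟨fun h => ?_, fun h => ?_⟩
  · have := pow_pos (n := x) (Nat.pos_of_ne_zero (h1 i h))
    omega
  · have h4 : 2 ^ x ≤ ((A ^ N i) i i) ^ x := Nat.pow_le_pow_left (h2 i h) x
    have h5 : 2 ^ 1 ≤ 2 ^ x := Nat.pow_le_pow_right (by norm_num) (by omega)
    omega

/-- a common length of closed paths -/
structure Dd (Θ : Matrix γ γ ℕ) (B : Matrix β β ℕ) (D : ℕ) : Prop where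
  pos : 1 ≤ D
  t1 : ∀ c, (Θ ^ D) c c ≠ 0
  b1 : ∀ b, (B ^ D) b b ≠ 0
  t2 : ∀ c, Two Θ c → 2 ≤ (Θ ^ D) c c
  b2 : ∀ b, Two B b → 2 ≤ (B ^ D) b b

theorem exD {Θ : Matrix γ γ ℕ} {B : Matrix β β ℕ} (hΘ : Bo Θ) (hB : Gw B) : ∃ D, Dd Θ B D := by
  obtain ⟨D1, h1, h2⟩ := exD1 Θ
  obtain ⟨D2, h3, h4⟩ := exD1 B
  refine ⟨D1 * D2, Nat.mul_pos h1 h3, fun c => ?_, fun b => ?_, fun c hc => ?_, fun b hb => ?_⟩
  · have := pdl Θ c D1 D2
    have := pow_pos (n := D2) (Nat.pos_of_ne_zero ((h2 c).1 (hΘ.rec c)))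
    omega
  · have := pdl B b D2 D1
    have := pow_pos (n := D1) (Nat.pos_of_ne_zero ((h4 b).1 (hB.rec b)))
    rw [mul_comm D1]
    omega
  · have := pdl Θ c D1 D2
    have h5 : 2 ^ D2 ≤ ((Θ ^ D1) c c) ^ D2 := Nat.pow_le_pow_left ((h2 c).2 hc) D2
    have h6 : 2 ^ 1 ≤ 2 ^ D2 := Nat.pow_le_pow_right (by norm_num) h3
    omega
  · have := pdl B b D2 D1
    have h5 : 2 ^ D1 ≤ ((B ^ D2) b b) ^ D1 := Nat.pow_le_pow_left ((h4 b).2 hb) D1
    have h6 : 2 ^ 1 ≤ 2 ^ D1 := Nat.pow_le_pow_right (by norm_num) h1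
    rw [mul_comm D1]
    omega

theorem cl {A : Matrix α α ℕ} {i : α} {D : ℕ} (h : (A ^ D) i i ≠ 0) (x : ℕ) :
    (A ^ (D * x)) i i ≠ 0 := by
  have := pdl A i D x
  have := pow_pos (n := x) (Nat.pos_of_ne_zero h)
  omega

theorem cl2 {A : Matrix α α ℕ} {i : α} {D : ℕ} (h : 2 ≤ (A ^ D) i i) (x : ℕ) :
    x ≤ (A ^ (D * x)) i i := by
  have h1 := pdl A i D x
  have h2 : 2 ^ x ≤ ((A ^ D) i i) ^ x := Nat.pow_le_pow_left h x
  have h3 : x < 2 ^ x := Nat.lt_two_pow_self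
  omega

theorem mod_add_mul (D a x : ℕ) : a + D * x ≡ a [MOD D] := Nat.add_mul_mod_self_left a D x

/-- reachable pairs with total length `κ` modulo `D` -/
def Up (D κ : ℕ) (Θ : Matrix γ γ ℕ) (m : Matrix γ β ℕ) (B : Matrix β β ℕ) (i : γ) (b : β) :
    Prop := ∃ j k : ℕ, j + k ≡ κ [MOD D] ∧ (Θ ^ j * m * B ^ k) i b ≠ 0

theorem Up.mod {D κ κ' : ℕ} {Θ : Matrix γ γ ℕ} {m : Matrix γ β ℕ} {B : Matrix β β ℕ} {i : γ}
    {b : β} (h : Up D κ Θ m B i b) (hκ : κ ≡ κ' [MOD D]) : Up D κ' Θ m B i b := by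
  obtain ⟨j, k, h1, h2⟩ := h
  exact ⟨j, k, h1.trans hκ, h2⟩

theorem Up.right {D κ : ℕ} {Θ : Matrix γ γ ℕ} {m : Matrix γ β ℕ} {B : Matrix β β ℕ} {i : γ}
    {b b' : β} {s : ℕ} (h : Up D κ Θ m B i b) (hb : (B ^ s) b b' ≠ 0) :
    Up D (κ + s) Θ m B i b' := by
  obtain ⟨j, k, h1, h2⟩ := h
  refine ⟨j, k + s, ?_, ?_⟩
  · rw [← add_assoc]; exact h1.add_right s
  · rw [pow_add, ← Matrix.mul_assoc]; exact mne h2 hb

theorem Up.left {D κ : ℕ} {Θ : Matrix γ γ ℕ} {m : Matrix γ β ℕ} {B : Matrix β β ℕ} {i i' : γ}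
    {b : β} {s : ℕ} (h : Up D κ Θ m B i b) (hb : (Θ ^ s) i' i ≠ 0) :
    Up D (κ + s) Θ m B i' b := by
  obtain ⟨j, k, h1, h2⟩ := h
  refine ⟨s + j, k, ?_, ?_⟩
  · rw [show s + j + k = j + k + s by ring]; exact h1.add_right s
  · rw [pow_add, Matrix.mul_assoc (Θ ^ s), Matrix.mul_assoc (Θ ^ s)]; exact mne hb h2

theorem Up.of {D : ℕ} {Θ : Matrix γ γ ℕ} {m : Matrix γ β ℕ} {B : Matrix β β ℕ} {i : γ}
    {b : β} (h : m i b ≠ 0) : Up D 0 Θ m B i b := by
  refine ⟨0, 0, rfl, ?_⟩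
  rw [pow_zero, pow_zero, Matrix.one_mul, Matrix.mul_one]; exact h

/-- block data of a shift equivalence -/
structure BD (Θ : Matrix γ γ ℕ) (m m' : Matrix γ β ℕ) (B : Matrix β β ℕ) (e f l : ℕ)
    (r : Matrix γ β ℕ) (s0 : Matrix γ γ ℕ) (s12 : Matrix γ β ℕ) (S2 : Matrix β β ℕ) : Prop where
  q1 : Θ ^ e * m' + r * B = m * B ^ f + Θ * r
  q2 : Θ ^ e * s0 = Θ ^ l
  q3 : S2 * B ^ f = B ^ l
  q4 : Θ ^ e * s12 + r * S2 = PP Θ m B l
  q5 : s0 * r + s12 * B ^ f = PP Θ m' B l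

section

variable {Θ : Matrix γ γ ℕ} {m m' : Matrix γ β ℕ} {B : Matrix β β ℕ} {e f l : ℕ}
  {r : Matrix γ β ℕ} {s0 : Matrix γ γ ℕ} {s12 : Matrix γ β ℕ} {S2 : Matrix β β ℕ} {D : ℕ}

theorem PP_up {t : ℕ} {i : γ} {b : β} (h : PP Θ m B t i b ≠ 0) :
    ∃ t', t = t' + 1 ∧ Up D t' Θ m B i b := by
  obtain ⟨k, hk, h⟩ := PP_ne Θ m B i b h
  refine ⟨t - 1, by omega, t - 1 - k, k, ?_, ?_⟩
  · rw [show t - 1 - k + k = t - 1 by omega]
  · rw [Matrix.mul_assoc]; exact h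

theorem BD.r1 (h : BD Θ m m' B e f l r s0 s12 S2) (hD : Dd Θ B D) {i : γ} {b : β}
    (hr : r i b ≠ 0) : Up D (f + (D - 1)) Θ m B i b := by
  have h1 : (S2 * B ^ (f + l * (D - 1))) b b ≠ 0 := by
    rw [pow_add, ← Matrix.mul_assoc, h.q3, ← pow_add]
    have e1 : l + l * (D - 1) = D * l := by
      obtain ⟨d, rfl⟩ : ∃ d, D = d + 1 := ⟨D - 1, by have := hD.pos; omega⟩
      simp; ring
    rw [e1]
    exact cl (hD.b1 b) l
  obtain ⟨b1, h2, h3⟩ := mex h1
  have h4 : PP Θ m B l i b1 ≠ 0 := by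
    rw [← h.q4]
    have := mne hr h2
    change (Θ ^ e * s12) i b1 + (r * S2) i b1 ≠ 0
    omega
  obtain ⟨l', hl', hu⟩ := PP_up (D := D) h4
  refine (hu.right h3).mod ?_
  have e2 : l' + (f + l * (D - 1)) = f + (D - 1) + D * l' := by
    obtain ⟨d, rfl⟩ : ∃ d, D = d + 1 := ⟨D - 1, by have := hD.pos; omega⟩
    rw [hl']; simp; ring
  rw [e2]
  exact mod_add_mul D _ _

theorem BD.r2 (h : BD Θ m m' B e f l r s0 s12 S2) (hD : Dd Θ B D) {i : γ} {b : β}
    (hr : r i b ≠ 0) : Up D (e + (D - 1)) Θ m' B i b := by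
  have h1 : (Θ ^ (e + l * (D - 1)) * s0) i i ≠ 0 := by
    rw [add_comm e, pow_add, Matrix.mul_assoc, h.q2, ← pow_add]
    have e1 : l * (D - 1) + l = D * l := by
      obtain ⟨d, rfl⟩ : ∃ d, D = d + 1 := ⟨D - 1, by have := hD.pos; omega⟩
      simp; ring
    rw [e1]
    exact cl (hD.t1 i) l
  obtain ⟨c', h2, h3⟩ := mex h1
  have h4 : PP Θ m' B l c' b ≠ 0 := by
    rw [← h.q5]
    have := mne h3 hr
    change (s0 * r) c' b + (s12 * B ^ f) c' b ≠ 0
    omega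
  obtain ⟨l', hl', hu⟩ := PP_up (D := D) h4
  refine (hu.left h2).mod ?_
  have e2 : l' + (e + l * (D - 1)) = e + (D - 1) + D * l' := by
    obtain ⟨d, rfl⟩ : ∃ d, D = d + 1 := ⟨D - 1, by have := hD.pos; omega⟩
    rw [hl']; simp; ring
  rw [e2]
  exact mod_add_mul D _ _

theorem shift1 (hD1 : 1 ≤ D) (a : ℕ) : a + (D - 1) + 1 ≡ a [MOD D] := by
  have : a + (D - 1) + 1 = a + D * 1 := by omega
  rw [this]; exact mod_add_mul D a 1

theorem BD.up1 (h : BD Θ m m' B e f l r s0 s12 S2) (hD : Dd Θ B D) {x : ℕ} {i : γ} {b : β}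
    (hu : Up D (e + x) Θ m' B i b) : Up D (f + x) Θ m B i b := by
  obtain ⟨j, k, hjk, hne⟩ := hu
  obtain ⟨b0, h1, hk⟩ := mex hne
  obtain ⟨c, hj, hm⟩ := mex h1
  have hj2 : (Θ ^ (j + D * e)) i c ≠ 0 := by rw [pow_add]; exact mne hj (cl (hD.t1 c) e)
  obtain ⟨w, hw⟩ : ∃ w, j + D * e = w + e := by
    refine ⟨j + D * e - e, ?_⟩
    have : e ≤ D * e := Nat.le_mul_of_pos_left e hD.pos
    omega
  rw [hw, pow_add] at hj2
  obtain ⟨i1, hw1, he1⟩ := mex hj2
  have h2 : (Θ ^ e * m') i1 b0 ≠ 0 := mne he1 hm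
  have h3 : (m * B ^ f) i1 b0 ≠ 0 ∨ (Θ * r) i1 b0 ≠ 0 := by
    by_contra hcon
    push Not at hcon
    have h4 := congrFun (congrFun h.q1 i1) b0
    change (Θ ^ e * m') i1 b0 + (r * B) i1 b0 = (m * B ^ f) i1 b0 + (Θ * r) i1 b0 at h4
    rw [hcon.1, hcon.2] at h4
    omega
  have htot : w + (k + f) ≡ f + x [MOD D] := by
    have e1 : w + (k + f) + e = (j + k) + f + D * e := by rw [add_assoc w, add_comm (k + f), ← add_assoc, ← hw]; ring
    have h5 : w + (k + f) + e ≡ f + x + e [MOD D] := by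
      rw [e1]
      refine (mod_add_mul D _ e).trans ?_
      have := hjk.add_right f
      rw [show f + x + e = e + x + f by ring]
      exact this
    exact Nat.ModEq.add_right_cancel' e h5
  rcases h3 with h3 | h3
  · obtain ⟨b2, h4, h5⟩ := mex h3
    have u0 : Up D 0 Θ m B i1 b2 := Up.of h4
    have u1 := ((u0.right h5).right hk).left hw1
    refine u1.mod ?_
    rw [show 0 + f + k + w = w + (k + f) by ring]
    exact htot
  · obtain ⟨i2, h4, h5⟩ := mex h3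
    have u0 := h.r1 hD h5
    have u1 := ((u0.left (s := 1) (by rw [pow_one]; exact h4)).right hk).left hw1
    refine u1.mod ?_
    refine Nat.ModEq.trans ?_ htot
    have := ((shift1 hD.pos f).add_right k).add_right w
    rw [show w + (k + f) = f + k + w by ring]
    exact this

theorem BD.up2 (h : BD Θ m m' B e f l r s0 s12 S2) (hD : Dd Θ B D) {x : ℕ} {i : γ} {b : β}
    (hu : Up D (f + x) Θ m B i b) : Up D (e + x) Θ m' B i b := by
  obtain ⟨j, k, hjk, hne⟩ := hu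
  obtain ⟨b0, h1, hk⟩ := mex hne
  obtain ⟨c, hj, hm⟩ := mex h1
  have hk2 : (B ^ (D * f + k)) b0 b ≠ 0 := by
    rw [add_comm, pow_add]; exact mne hk (cl (hD.b1 b) f)
  obtain ⟨w, hw⟩ : ∃ w, D * f + k = f + w := by
    refine ⟨D * f + k - f, ?_⟩
    have : f ≤ D * f := Nat.le_mul_of_pos_left f hD.pos
    omega
  rw [hw, pow_add] at hk2
  obtain ⟨b2, hf1, hw1⟩ := mex hk2
  have h2 : (m * B ^ f) c b2 ≠ 0 := mne hm hf1
  have h3 : (Θ ^ e * m') c b2 ≠ 0 ∨ (r * B) c b2 ≠ 0 := by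
    by_contra hcon
    push Not at hcon
    have h4 := congrFun (congrFun h.q1 c) b2
    change (Θ ^ e * m') c b2 + (r * B) c b2 = (m * B ^ f) c b2 + (Θ * r) c b2 at h4
    rw [hcon.1, hcon.2] at h4
    omega
  have htot : j + (w + e) ≡ e + x [MOD D] := by
    have e1 : j + (w + e) + f = (j + k) + e + D * f := by
      rw [show j + (w + e) + f = j + e + (f + w) by ring, ← hw]; ring
    have h5 : j + (w + e) + f ≡ e + x + f [MOD D] := by
      rw [e1]
      refine (mod_add_mul D _ f).trans ?_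
      have := hjk.add_right e
      rw [show e + x + f = f + x + e by ring]
      exact this
    exact Nat.ModEq.add_right_cancel' f h5
  rcases h3 with h3 | h3
  · obtain ⟨i1, h4, h5⟩ := mex h3
    have u0 : Up D 0 Θ m' B i1 b2 := Up.of h5
    have u1 := ((u0.left h4).right hw1).left hj
    refine u1.mod ?_
    rw [show 0 + e + w + j = j + (w + e) by ring]
    exact htot
  · obtain ⟨b3, h4, h5⟩ := mex h3
    have u0 := h.r2 hD h4
    have u1 := ((u0.right (s := 1) (by rw [pow_one]; exact h5)).right hw1).left hj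
    refine u1.mod ?_
    refine Nat.ModEq.trans ?_ htot
    have := ((shift1 hD.pos e).add_right w).add_right j
    rw [show j + (w + e) = e + w + j by ring]
    exact this

end

theorem lin_growth {B : Matrix β β ℕ} {μ : Matrix γ β ℕ} {i : γ} {b b' : β} {k D : ℕ}
    (h1 : B b b = 1) (hne : b' ≠ b) (hb : B b' b ≠ 0) (hD : (B ^ D) b' b' ≠ 0) (hD1 : 1 ≤ D)
    (hk : (μ * B ^ k) i b' ≠ 0) (x : ℕ) : ∀ N : ℕ, k + D * x + 1 ≤ N → x + 1 ≤ (μ * B ^ N) i b := by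
  have hmono1 : ∀ N : ℕ, (μ * B ^ N) i b ≤ (μ * B ^ (N + 1)) i b := by
    intro N
    have := mul_entry_le (μ * B ^ N) B i b b
    rw [h1, mul_one] at this
    rw [pow_succ, ← Matrix.mul_assoc]
    exact this
  have hmono : ∀ N M : ℕ, N ≤ M → (μ * B ^ N) i b ≤ (μ * B ^ M) i b := fun N M h =>
    monotone_nat_of_le_succ (f := fun N : ℕ => (μ * B ^ N) i b) hmono1 h
  have hst : ∀ N : ℕ, (μ * B ^ N) i b' ≠ 0 → (μ * B ^ N) i b + 1 ≤ (μ * B ^ (N + 1)) i b := by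
    intro N hN
    have h6 := mul_two_le (μ * B ^ N) B i b b' (Ne.symm hne)
    rw [h1, mul_one] at h6
    have h9 : 1 * 1 ≤ (μ * B ^ N) i b' * B b' b :=
      Nat.mul_le_mul (Nat.one_le_iff_ne_zero.2 hN) (Nat.one_le_iff_ne_zero.2 hb)
    rw [pow_succ, ← Matrix.mul_assoc]
    omega
  have hper : ∀ x : ℕ, (μ * B ^ (k + D * x)) i b' ≠ 0 := by
    intro x
    rw [pow_add, ← Matrix.mul_assoc]
    exact mne hk (cl hD x)
  induction x with
  | zero =>
    intro N hN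
    have h2 := hst k hk
    have h3 := hmono (k + 1) N (by simpa using hN)
    omega
  | succ x ih =>
    intro N hN
    have h2 := hst (k + D * (x + 1)) (hper (x + 1))
    have h3 := hmono (k + D * (x + 1) + 1) N hN
    have h4 := ih (k + D * (x + 1)) (by rw [Nat.mul_succ]; omega)
    omega

/-- growth at one pair -/
theorem grow1 {Θ : Matrix γ γ ℕ} {B : Matrix β β ℕ} {D : ℕ} (hΘ : Bo Θ) (hB : Gw B)
    (hD : Dd Θ B D) (μ : Matrix γ β ℕ) (κ K : ℕ) (i : γ) (b : β) :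
    ∃ p0 : ℕ, ∀ p, p0 ≤ p → ∃ a0 : ℕ, ∀ a c : ℕ, a0 ≤ a → a0 ≤ c → D ∣ a →
      a + c + D * p ≡ κ [MOD D] → Up D κ Θ μ B i b →
      (∃ s i' b', s ≤ D * p ∧ (Θ ^ s) i i' ≠ 0 ∧ (B ^ (D * p - s)) b' b ≠ 0 ∧
        K * (D * p + 1) ≤ (Θ ^ a * μ * B ^ c) i' b') ∨
      (1 ≤ (Θ ^ a * μ * B ^ c) i b ∧ B b b = 1 ∧
        (∀ b', Up D (κ + (D - 1)) Θ μ B i b' → B b' b = if b' = b then 1 else 0) ∧
        ∀ c, Θ i c = if c = i then 1 else 0) := by
  classical
  by_cases hu : Up D κ Θ μ B i b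
  swap
  · exact ⟨0, fun p _ => ⟨0, fun a c _ _ _ _ h => absurd h hu⟩⟩
  obtain ⟨j, k, hjk, hne⟩ := hu
  rcases hΘ with hΘ | ⟨hs, h1⟩
  · obtain ⟨b0, h1, hk⟩ := mex hne
    obtain ⟨c0, hj, hm⟩ := mex h1
    refine ⟨j, fun p hp => ⟨D * (K * (D * p + 1)) + k, fun a c ha hc hda htot _ => Or.inl ?_⟩⟩
    have hjp : j ≤ D * p := hp.trans (Nat.le_mul_of_pos_left p hD.pos)
    obtain ⟨x, rfl⟩ := hda
    have hx : K * (D * p + 1) ≤ x := by
      have : D * (K * (D * p + 1)) ≤ D * x := by omega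
      exact Nat.le_of_mul_le_mul_left this hD.pos
    have hmod : j + k ≡ c + D * p [MOD D] := by
      refine hjk.trans (htot.symm.trans ?_)
      rw [show D * x + c + D * p = c + D * p + D * x by ring]
      exact mod_add_mul D _ x
    have hle : j + k ≤ c + D * p := by omega
    obtain ⟨x', hx'⟩ := (Nat.modEq_iff_dvd' hle).1 hmod
    have e1 : c + (D * p - j) = k + D * x' := by omega
    have h2 : (B ^ (c + (D * p - j))) b0 b ≠ 0 := by
      rw [e1, pow_add]; exact mne hk (cl (hD.b1 b) x')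
    rw [pow_add] at h2
    obtain ⟨b', h3, h4⟩ := mex h2
    refine ⟨j, c0, b', hjp, hj, h4, ?_⟩
    have h5 := mul_entry_le (Θ ^ (D * x) * μ) (B ^ c) c0 b0 b'
    have h6 := mul_entry_le (Θ ^ (D * x)) μ c0 c0 b0
    have h7 := cl2 (hD.t2 c0 (hΘ c0)) x
    have h8 : x * 1 ≤ (Θ ^ (D * x)) c0 c0 * μ c0 b0 :=
      Nat.mul_le_mul h7 (Nat.one_le_iff_ne_zero.2 hm)
    have h9 : x * 1 ≤ (Θ ^ (D * x) * μ) c0 b0 * (B ^ c) b0 b' :=
      Nat.mul_le_mul (by omega) (Nat.one_le_iff_ne_zero.2 h3)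
    omega
  · have e0 : ∀ j k : ℕ, Θ ^ j * μ * B ^ k = μ * B ^ k := by
      intro j k; rw [h1, one_pow, Matrix.one_mul]
    have hΘi : ∀ s : ℕ, (Θ ^ s) i i ≠ 0 := by
      intro s; rw [h1, one_pow, Matrix.one_apply_eq]; exact one_ne_zero
    rw [e0] at hne
    rcases hB b with h2 | hone
    · -- growth at `b`
      refine ⟨1, fun p hp => ⟨k + D * (K * (D * p + 1) + 1), fun a c ha hc hda htot _ =>
        Or.inl ?_⟩⟩
      obtain ⟨x, ρ, hρ, hx⟩ : ∃ x ρ, ρ < D ∧ c = k + D * x + ρ := by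
        refine ⟨(c - k) / D, (c - k) % D, Nat.mod_lt _ hD.pos, ?_⟩
        have := Nat.div_add_mod (c - k) D
        omega
      have hx1 : K * (D * p + 1) ≤ x := by
        by_contra hlt
        have h3 : x + 1 ≤ K * (D * p + 1) := by omega
        have h4 : D * (x + 1) ≤ D * (K * (D * p + 1)) := Nat.mul_le_mul_left _ h3
        rw [Nat.mul_succ] at h4
        rw [Nat.mul_succ] at hc
        omega
      have h3 := hD.b1 b
      rw [show D = ρ + (D - ρ) by omega, pow_add] at h3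
      obtain ⟨b', h4, h5⟩ := mex h3
      have hDp : D ≤ D * p := Nat.le_mul_of_pos_right D hp
      refine ⟨D * p - (D - ρ), i, b', Nat.sub_le _ _, hΘi _, ?_, ?_⟩
      · rw [show D * p - (D * p - (D - ρ)) = D - ρ by omega]; exact h5
      · rw [e0, hx, pow_add, pow_add, ← Matrix.mul_assoc, ← Matrix.mul_assoc]
        have h6 := mul_entry_le (μ * B ^ k * B ^ (D * x)) (B ^ ρ) i b b'
        have h7 := mul_entry_le (μ * B ^ k) (B ^ (D * x)) i b b
        have h8 := cl2 (hD.b2 b h2) x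
        have h9 : 1 * x ≤ (μ * B ^ k) i b * (B ^ (D * x)) b b :=
          Nat.mul_le_mul (Nat.one_le_iff_ne_zero.2 hne) h8
        have h10 : x * 1 ≤ (μ * B ^ k * B ^ (D * x)) i b * (B ^ ρ) b b' :=
          Nat.mul_le_mul (by omega) (Nat.one_le_iff_ne_zero.2 h4)
        omega
    · by_cases hpr : ∃ b', b' ≠ b ∧ (∃ k' : ℕ, (μ * B ^ k') i b' ≠ 0) ∧ B b' b ≠ 0
      · obtain ⟨b', hnb, ⟨k', hk'⟩, hbb⟩ := hpr
        refine ⟨0, fun p hp => ⟨k' + D * (K * (D * p + 1)) + 1, fun a c ha hc hda htot _ =>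
          Or.inl ⟨D * p, i, b, le_rfl, hΘi _, ?_, ?_⟩⟩⟩
        · rw [Nat.sub_self, pow_zero, Matrix.one_apply_eq]; exact one_ne_zero
        · rw [e0]
          have := lin_growth hone hnb hbb (hD.b1 b') hD.pos hk' (K * (D * p + 1)) c hc
          omega
      · have hst : ∀ b', (∃ k' : ℕ, (μ * B ^ k') i b' ≠ 0) → B b' b = if b' = b then 1 else 0 := by
          intro b' hb'
          by_cases h : b' = b
          · rw [if_pos h, h, hone]
          · rw [if_neg h]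
            by_contra hne'
            exact hpr ⟨b', h, hb', hne'⟩
        have hbb : ∀ (s : ℕ) (b0 : β), μ i b0 ≠ 0 → (B ^ s) b0 b ≠ 0 → b0 = b := by
          intro s
          induction s with
          | zero =>
            intro b0 _ h
            by_contra hne'
            exact h (by rw [pow_zero, Matrix.one_apply_ne hne'])
          | succ s ih =>
            intro b0 hU0 h
            rw [pow_succ] at h
            obtain ⟨b1, h4, h5⟩ := mex h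
            have h6 := hst b1 ⟨s, mne hU0 h4⟩
            by_cases hb1 : b1 = b
            · exact ih b0 hU0 (hb1 ▸ h4)
            · rw [if_neg hb1] at h6
              exact absurd h6 h5
        obtain ⟨b0, h3, h4⟩ := mex hne
        have hb0 := hbb k b0 h3 h4
        refine ⟨0, fun p hp => ⟨0, fun a c ha hc hda htot _ => Or.inr ⟨?_, hone, ?_, ?_⟩⟩⟩
        · rw [e0]
          have h6 := mul_entry_le μ (B ^ c) i b b
          have h7 := diag_one hone c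
          have h8 : μ i b ≠ 0 := by rw [← hb0]; exact h3
          have h9 : 1 * 1 ≤ μ i b * (B ^ c) b b :=
            Nat.mul_le_mul (Nat.one_le_iff_ne_zero.2 h8) h7
          omega
        · rintro b' ⟨j', k', _, h5⟩
          rw [e0] at h5
          exact hst b' ⟨k', h5⟩
        · intro c
          rw [Subsingleton.elim c i, h1, Matrix.one_apply_eq, if_pos rfl]

end Run7.h850.SG
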