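import Pool.Agent.Run7.h850.SS.Loc

/-!
# Legal paths of moves, spreading
-/

set_option autoImplicit false
set_option linter.unusedSectionVars false
set_option linter.unusedVariables false

namespace Run7.h850.SG

open Matrix Pool.Agent.H812R2.SSE Run7.h850.SS

variable {γ β : Type} [Fintype γ] [DecidableEq γ] [Fintype β] [DecidableEq β]

/-- the discrete path -/
theorem path2 (Θ : Matrix γ γ ℕ) (B : Matrix β β ℕ) (n1 n2 q : Matrix γ β ℕ)
    (U : γ → β → Prop) (hq : ∀ i b b', q i b ≠ 0 → B b b' ≠ 0 → U i b')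
    (h12 : ∀ i b, U i b → (tot B + tot Θ ≤ n1 i b ∧ tot B + tot Θ ≤ n2 i b) ∨
      (1 ≤ n1 i b ∧ (∀ b', q i b' ≠ 0 → B b' b = if b' = b then 1 else 0) ∧
        ∀ c, Θ i c = if c = i then 1 else 0))
    (he : n2 + q * B = n1 + Θ * q) :
    CH (XO Θ n1 B) (XO Θ n2 B) (fromBlocks 1 q 0 1) := by
  obtain ⟨L, hL⟩ : ∃ L, L = tot q + 1 := ⟨_, rfl⟩
  have hL0 : 0 < L := by omega
  have hqL : ∀ i b, q i b ≤ L := fun i b => (le_tot q i b).trans (by omega)
  obtain ⟨r, hr⟩ : ∃ r : ℕ → Matrix γ β ℕ, ∀ j i b, r j i b = j * q i b / L :=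
    ⟨fun j i b => j * q i b / L, fun _ _ _ => rfl⟩
  have hr1 : ∀ j i b, L * r j i b ≤ j * q i b := fun j i b => by
    rw [hr]; exact Nat.mul_div_le _ _
  have hr2 : ∀ j i b, j * q i b ≤ L * r j i b + L := fun j i b => by
    rw [hr]
    have := Nat.lt_mul_div_succ (j * q i b) hL0
    have h3 : L * (j * q i b / L + 1) = L * (j * q i b / L) + L := by ring
    omega
  have key : ∀ j, j ≤ L → ∃ n : Matrix γ β ℕ, n + r j * B = n1 + Θ * r j ∧
      CH (XO Θ n1 B) (XO Θ n B) (fromBlocks 1 (r j) 0 1) := by
    intro j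
    induction j with
    | zero =>
      intro _
      have h0 : r 0 = 0 := by
        ext i b
        rw [hr]; simp
      refine ⟨n1, by rw [h0]; simp, ?_⟩
      rw [h0, Matrix.fromBlocks_one]
      exact CH.refl _
    | succ j ih =>
      intro hj
      obtain ⟨n, hn, hc⟩ := ih (by omega)
      -- the increment
      have hmono : ∀ i b, r j i b ≤ r (j + 1) i b := fun i b => by
        rw [hr, hr]
        exact Nat.div_le_div_right (Nat.mul_le_mul_right _ (by omega))
      obtain ⟨E, hE⟩ : ∃ E : Matrix γ β ℕ, ∀ i b, r (j + 1) i b = r j i b + E i b :=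
        ⟨fun i b => r (j + 1) i b - r j i b, fun i b => (Nat.add_sub_cancel' (hmono i b)).symm⟩
      have hE1 : ∀ i b, E i b ≤ 1 := by
        intro i b
        have h3 : r (j + 1) i b ≤ r j i b + 1 := by
          rw [hr, hr]
          have : (j + 1) * q i b ≤ j * q i b + L := by
            have := hqL i b
            rw [Nat.add_mul]; omega
          calc (j + 1) * q i b / L ≤ (j * q i b + L) / L := Nat.div_le_div_right this
            _ = j * q i b / L + 1 := Nat.add_div_right _ hL0
        have := hE i b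
        omega
      have hEU : ∀ i b, E i b ≠ 0 → q i b ≠ 0 := by
        intro i b h
        intro h0
        apply h
        have h3 := hE i b
        rw [hr, hr, h0] at h3
        simp at h3
        exact h3.symm
      have hEB : ∀ i b, (E * B) i b ≤ n i b := by
        intro i b'
        by_cases hb : U i b'
        · rcases h12 i b' hb with ⟨h1b, h2b⟩ | ⟨h1b, hB1, hΘ1⟩
          swap
          · -- a static entry
            have s1 : ∀ X : Matrix γ β ℕ, (∀ b, X i b ≠ 0 → q i b ≠ 0) →
                (X * B) i b' = X i b' := by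
              intro X hX
              rw [Matrix.mul_apply, Finset.sum_eq_single b']
              · by_cases hX0 : X i b' = 0
                · rw [hX0, zero_mul]
                · rw [hB1 b' (hX b' hX0), if_pos rfl, mul_one]
              · intro b _ hbb
                by_cases hX0 : X i b = 0
                · rw [hX0, zero_mul]
                · rw [hB1 b (hX b hX0), if_neg hbb, mul_zero]
              · intro h; exact absurd (Finset.mem_univ _) h
            have s2 : (Θ * r j) i b' = r j i b' := by
              rw [Matrix.mul_apply, Finset.sum_eq_single i]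
              · rw [hΘ1, if_pos rfl, one_mul]
              · intro c _ hc
                rw [hΘ1, if_neg hc, zero_mul]
              · intro h; exact absurd (Finset.mem_univ _) h
            have s3 : n i b' + (r j * B) i b' = n1 i b' + (Θ * r j) i b' := by
              have := congrFun (congrFun hn i) b'
              exact this
            rw [s2, s1 (r j) (fun b h0 => (fun h4 => h0 (by rw [hr, h4]; simp)))] at s3
            rw [s1 E (fun b h0 => hEU i b h0)]
            have := hE1 i b'
            omega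
          have k1 : (E * B) i b' ≤ tot B := by
            rw [Matrix.mul_apply]
            refine le_trans (Finset.sum_le_sum fun b _ => ?_) (col_le B b')
            calc E i b * B b b' ≤ 1 * B b b' := Nat.mul_le_mul_right _ (hE1 i b)
              _ = B b b' := one_mul _
          -- the lower bound for n
          have k2 : L * (r j * B) i b' ≤ j * (q * B) i b' := by
            rw [Matrix.mul_apply, Matrix.mul_apply, Finset.mul_sum, Finset.mul_sum]
            refine Finset.sum_le_sum fun b _ => ?_
            rw [← mul_assoc, ← mul_assoc]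
            exact Nat.mul_le_mul_right _ (hr1 j i b)
          have k3 : j * (Θ * q) i b' ≤ L * (Θ * r j) i b' + L * tot Θ := by
            have k4 : j * (Θ * q) i b' ≤ L * (Θ * r j) i b' + L * ∑ c, Θ i c := by
              rw [Matrix.mul_apply, Matrix.mul_apply, Finset.mul_sum, Finset.mul_sum,
                Finset.mul_sum, ← Finset.sum_add_distrib]
              refine Finset.sum_le_sum fun c _ => ?_
              have := Nat.mul_le_mul_left (Θ i c) (hr2 j c b')
              calc j * (Θ i c * q c b') = Θ i c * (j * q c b') := by ring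
                _ ≤ Θ i c * (L * r j c b' + L) := this
                _ = L * (Θ i c * r j c b') + L * Θ i c := by ring
            exact k4.trans (Nat.add_le_add_left (Nat.mul_le_mul_left _ (row_le Θ i)) _)
          have k5 : n i b' + (r j * B) i b' = n1 i b' + (Θ * r j) i b' := by
            have := congrFun (congrFun hn i) b'
            exact this
          have k6 : n2 i b' + (q * B) i b' = n1 i b' + (Θ * q) i b' := by
            have := congrFun (congrFun he i) b'
            exact this
          have k7 := h1b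
          have k8 := h2b
          have k9 : L * tot B ≤ L * n i b' := by
            have e1 : L * n i b' + L * (r j * B) i b' = L * n1 i b' + L * (Θ * r j) i b' := by
              rw [← Nat.mul_add, k5, Nat.mul_add]
            have e2 : j * n2 i b' + j * (q * B) i b' = j * n1 i b' + j * (Θ * q) i b' := by
              rw [← Nat.mul_add, k6, Nat.mul_add]
            obtain ⟨w, hw⟩ : ∃ w, L = j + w := ⟨L - j, by omega⟩
            have e3 : w * (tot B + tot Θ) ≤ w * n1 i b' := Nat.mul_le_mul_left _ k7
            have e4 : j * (tot B + tot Θ) ≤ j * n2 i b' := Nat.mul_le_mul_left _ k8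
            have e5 : L * n1 i b' = j * n1 i b' + w * n1 i b' := by rw [hw]; ring
            have e6 : L * (tot B + tot Θ) = j * (tot B + tot Θ) + w * (tot B + tot Θ) := by
              rw [hw]; ring
            have e7 : L * (tot B + tot Θ) = L * tot B + L * tot Θ := by ring
            omega
          exact k1.trans (Nat.le_of_mul_le_mul_left k9 hL0)
        · have : (E * B) i b' = 0 := by
            by_contra hne
            obtain ⟨b, hb1, hb2⟩ := mul_ne_zero_entry _ _ _ _ hne
            exact hb (hq i b b' (hEU i b hb1) hb2)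
          rw [this]; exact Nat.zero_le _
      obtain ⟨n0, hn0⟩ : ∃ n0 : Matrix γ β ℕ, n = n0 + E * B :=
        ⟨fun i b => n i b - (E * B) i b, by
          ext i b
          have := hEB i b
          change n i b = n i b - (E * B) i b + (E * B) i b
          omega⟩
      have hrr : r (j + 1) = r j + E := by
        ext i b; exact hE i b
      refine ⟨n0 + Θ * E, ?_, ?_⟩
      · rw [hrr, Matrix.add_mul, Matrix.mul_add, ← add_assoc n1, ← hn, hn0]
        abel
      · have c := hc.trans (move Θ n n0 E B hn0)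
        convert c using 1
        rw [hrr, Matrix.fromBlocks_multiply]
        simp [add_comm]
  obtain ⟨n, hn, hc⟩ := key L le_rfl
  have hrL : r L = q := by
    ext i b
    rw [hr]
    exact Nat.mul_div_cancel_left _ hL0
  rw [hrL] at hn hc
  have : n = n2 := by
    have h3 : n + q * B = n2 + q * B := by rw [hn, he]
    exact add_right_cancel h3
  rw [← this]
  exact hc


/-- a legal path of moves with total firing `F` -/
def Pth (Θ : Matrix γ γ ℕ) (B : Matrix β β ℕ) (n n' F : Matrix γ β ℕ) : Prop :=
  CH (XO Θ n B) (XO Θ n' B) (fromBlocks 1 F 0 1)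

section

variable {Θ : Matrix γ γ ℕ} {B : Matrix β β ℕ}

theorem Pth.refl (n : Matrix γ β ℕ) : Pth Θ B n n 0 := by
  unfold Pth
  rw [Matrix.fromBlocks_one]
  exact CH.refl _

theorem Pth.trans {n n' n'' F F' : Matrix γ β ℕ} (h : Pth Θ B n n' F) (h' : Pth Θ B n' n'' F') :
    Pth Θ B n n'' (F + F') := by
  unfold Pth at h h' ⊢
  have c := CH.trans h h'
  convert c using 1
  rw [Matrix.fromBlocks_multiply]
  simp [add_comm]

theorem Pth.cast {n n' F n1 n1' F1 : Matrix γ β ℕ} (h : Pth Θ B n n' F) (e1 : n = n1)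
    (e2 : n' = n1') (e3 : F = F1) : Pth Θ B n1 n1' F1 := by
  subst e1; subst e2; subst e3; exact h

/-- the balance equation -/
theorem Pth.eq {n n' F : Matrix γ β ℕ} (h : Pth Θ B n n' F) : n' + F * B = n + Θ * F := by
  have h1 := (CH.rev' h).1
  change fromBlocks Θ n 0 B * fromBlocks 1 F 0 1 = fromBlocks 1 F 0 1 * fromBlocks Θ n' 0 B at h1
  rw [Matrix.fromBlocks_multiply, Matrix.fromBlocks_multiply] at h1
  have h2 := congrArg Matrix.toBlocks₁₂ h1
  rw [Matrix.toBlocks_fromBlocks₁₂, Matrix.toBlocks_fromBlocks₁₂] at h2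
  simp only [Matrix.one_mul, Matrix.mul_one] at h2
  rw [← h2, add_comm]

theorem Pth.move (w E : Matrix γ β ℕ) : Pth Θ B (w + E * B) (w + Θ * E) E :=
  SS.move Θ _ w E B rfl

theorem PP_zero (z : Matrix γ β ℕ) : PP Θ z B 0 = 0 := by simp [PP]

theorem PP_add' (z : Matrix γ β ℕ) (s s' : ℕ) :
    PP Θ z B (s + s') = Θ ^ s * PP Θ z B s' + PP Θ z B s * B ^ s' := by
  have h := block_pow Θ z B (s + s')
  rw [pow_add, block_pow, block_pow, Matrix.fromBlocks_multiply] at h
  have h2 := congrArg Matrix.toBlocks₁₂ h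
  rw [Matrix.toBlocks_fromBlocks₁₂, Matrix.toBlocks_fromBlocks₁₂] at h2
  exact h2.symm

theorem PP_one (z : Matrix γ β ℕ) : PP Θ z B 1 = z := by simp [PP]

theorem PP_left (z : Matrix γ β ℕ) (a s : ℕ) : PP Θ (Θ ^ a * z) B s = Θ ^ a * PP Θ z B s := by
  unfold PP
  rw [Matrix.mul_sum]
  refine Finset.sum_congr rfl fun k _ => ?_
  rw [← Matrix.mul_assoc, ← Matrix.mul_assoc, ← Matrix.mul_assoc, ← Matrix.mul_assoc, ← pow_add,
    ← pow_add, add_comm]

theorem PP_right (z : Matrix γ β ℕ) (a s : ℕ) : PP Θ (z * B ^ a) B s = PP Θ z B s * B ^ a := by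
  unfold PP
  rw [Matrix.sum_mul]
  refine Finset.sum_congr rfl fun k _ => ?_
  simp only [Matrix.mul_assoc]
  rw [← pow_add, ← pow_add, add_comm]

theorem PP_plus (z z' : Matrix γ β ℕ) (s : ℕ) :
    PP Θ (z + z') B s = PP Θ z B s + PP Θ z' B s := by
  unfold PP
  rw [← Finset.sum_add_distrib]
  refine Finset.sum_congr rfl fun k _ => ?_
  rw [Matrix.add_mul, Matrix.mul_add]

theorem PP_nsmul (z : Matrix γ β ℕ) (J s : ℕ) : PP Θ (J • z) B s = J • PP Θ z B s := by
  unfold PP
  rw [Finset.smul_sum]
  refine Finset.sum_congr rfl fun k _ => ?_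
  rw [Matrix.smul_mul, Matrix.mul_smul]

/-- advancing a portion -/
theorem adv (s : ℕ) : ∀ (k : ℕ) (w z : Matrix γ β ℕ),
    Pth Θ B (w + z * B ^ (s + k)) (w + Θ ^ s * z * B ^ k) (PP Θ z B s * B ^ k) := by
  induction s with
  | zero =>
    intro k w z
    rw [PP_zero, Matrix.zero_mul, pow_zero, Matrix.one_mul, Nat.zero_add]
    exact Pth.refl _
  | succ s ih =>
    intro k w z
    have h1 := ih (k + 1) w z
    have h2 : Pth Θ B (w + (Θ ^ s * z * B ^ k) * B) (w + Θ * (Θ ^ s * z * B ^ k))
        (Θ ^ s * z * B ^ k) := Pth.move w _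
    have h3 := h1.trans (h2.cast (by rw [Matrix.mul_assoc, ← pow_succ]) rfl rfl)
    refine h3.cast ?_ ?_ ?_
    · rw [show s + (k + 1) = s + 1 + k by ring]
    · rw [pow_succ']; simp only [Matrix.mul_assoc]
    · rw [PP_add', PP_one, Matrix.add_mul, pow_one, Matrix.mul_assoc (PP Θ z B s), ← pow_succ',
        add_comm]

/-- the spread of a configuration -/
def Spr (Θ : Matrix γ γ ℕ) (B : Matrix β β ℕ) (y : Matrix γ β ℕ) (P J : ℕ) : Matrix γ β ℕ :=
  ∑ s ∈ Finset.range J, Θ ^ s * y * B ^ (P - s)

theorem spread (P : ℕ) (y : Matrix γ β ℕ) (J : ℕ) (hJ : J ≤ P + 1) :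
    ∀ w : Matrix γ β ℕ, Pth Θ B (w + J • (y * B ^ P)) (w + Spr Θ B y P J)
      (∑ s ∈ Finset.range J, PP Θ y B s * B ^ (P - s)) := by
  induction J with
  | zero =>
    intro w
    unfold Spr
    rw [Finset.sum_range_zero, Finset.sum_range_zero, zero_smul]
    exact Pth.refl _
  | succ J ih =>
    intro w
    have h1 := ih (by omega) (w + y * B ^ P)
    have h2 : Pth Θ B ((w + Spr Θ B y P J) + y * B ^ (J + (P - J)))
        ((w + Spr Θ B y P J) + Θ ^ J * y * B ^ (P - J)) (PP Θ y B J * B ^ (P - J)) := adv J _ _ _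
    have e : J + (P - J) = P := by omega
    rw [e] at h2
    have h3 := h1.trans (h2.cast (by abel) rfl rfl)
    refine h3.cast ?_ ?_ ?_
    · rw [succ_nsmul]; abel
    · unfold Spr
      rw [Finset.sum_range_succ, add_assoc]
    · rw [Finset.sum_range_succ]

theorem unspread (P : ℕ) (y : Matrix γ β ℕ) (J : ℕ) (hJ : J ≤ P + 1) :
    ∀ w : Matrix γ β ℕ, Pth Θ B (w + Spr Θ B y P J) (w + J • (Θ ^ P * y))
      (∑ s ∈ Finset.range J, PP Θ (Θ ^ s * y) B (P - s)) := by
  induction J with
  | zero =>
    intro w
    unfold Spr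
    rw [Finset.sum_range_zero, Finset.sum_range_zero, zero_smul]
    exact Pth.refl _
  | succ J ih =>
    intro w
    have h1 := ih (by omega) (w + Θ ^ J * y * B ^ (P - J))
    have h2 : Pth Θ B ((w + J • (Θ ^ P * y)) + (Θ ^ J * y) * B ^ (P - J + 0))
        ((w + J • (Θ ^ P * y)) + Θ ^ (P - J) * (Θ ^ J * y) * B ^ 0)
        (PP Θ (Θ ^ J * y) B (P - J) * B ^ 0) := adv (P - J) 0 _ _
    rw [Nat.add_zero, pow_zero, Matrix.mul_one, Matrix.mul_one] at h2
    have h3 := h1.trans (h2.cast (by abel) rfl rfl)
    refine h3.cast ?_ ?_ ?_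
    · unfold Spr
      rw [Finset.sum_range_succ]; abel
    · rw [succ_nsmul, ← Matrix.mul_assoc (Θ ^ (P - J)), ← pow_add,
        show P - J + J = P by omega, add_assoc]
    · rw [Finset.sum_range_succ]

theorem spread_total (P : ℕ) (y : Matrix γ β ℕ) (J : ℕ) (hJ : J ≤ P + 1) :
    (∑ s ∈ Finset.range J, PP Θ y B s * B ^ (P - s)) +
      (∑ s ∈ Finset.range J, PP Θ (Θ ^ s * y) B (P - s)) = J • PP Θ y B P := by
  rw [← Finset.sum_add_distrib]
  have e0 : J • PP Θ y B P = ∑ s ∈ Finset.range J, PP Θ y B P := by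
    rw [Finset.sum_const, Finset.card_range]
  rw [e0]
  refine Finset.sum_congr rfl fun s hs => ?_
  have hs' := Finset.mem_range.1 hs
  have e : P = s + (P - s) := by omega
  conv_rhs => rw [e, PP_add']
  rw [PP_left, add_comm]

end

end Run7.h850.SG
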